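import Mathlib
import Pool.Agent.H561R3.Strs

set_option autoImplicit false

namespace Pool.Agent.H561R3.SC

/-- the tower of block lengths -/
def lev (r a : ℕ) : ℕ → ℕ
  | 0 => 1
  | j + 1 => r * (lev r a j * 2 ^ lev r a j * a)

/-- one `r`-th of the next block length -/
def dd (r a j : ℕ) : ℕ := lev r a j * 2 ^ lev r a j * a

theorem lev_succ (r a j : ℕ) : lev r a (j + 1) = r * dd r a j := rfl

theorem lev_succ' (r a j : ℕ) : lev r a (j + 1) = (r * 2 ^ lev r a j * a) * lev r a j := by
  rw [lev_succ]; unfold dd; ring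

theorem lev_pos {r a : ℕ} (hr : 0 < r) (ha : 0 < a) (j : ℕ) : 0 < lev r a j := by
  induction j with
  | zero => exact Nat.one_pos
  | succ j ih =>
    rw [lev_succ]; unfold dd
    positivity

theorem two_pow_le_dd {r a : ℕ} (hr : 0 < r) (ha : 0 < a) (j : ℕ) :
    2 ^ lev r a j ≤ dd r a j := by
  have h1 := lev_pos hr ha j
  unfold dd
  calc 2 ^ lev r a j = 1 * 2 ^ lev r a j * 1 := by ring
    _ ≤ lev r a j * 2 ^ lev r a j * a := by gcongr <;> omega

/-- the aligned blocks of length `l` -/
def bl (l : ℕ) (σ : List Bool) : Finset (List Bool) :=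
  (Finset.range (σ.length / l)).image (fun k => (σ.drop (k * l)).take l)

theorem lt_div_iff_aux {k l n : ℕ} (hl : 0 < l) : k < n / l ↔ (k + 1) * l ≤ n := by
  rw [Nat.lt_iff_add_one_le, Nat.le_div_iff_mul_le hl]

theorem bl_length {l : ℕ} (hl : 0 < l) {σ τ : List Bool} (h : τ ∈ bl l σ) : τ.length = l := by
  simp only [bl, Finset.mem_image, Finset.mem_range] at h
  obtain ⟨k, hk, rfl⟩ := h
  rw [lt_div_iff_aux hl] at hk
  rw [List.length_take, List.length_drop]
  have : (k + 1) * l = k * l + l := by ring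
  omega

theorem bl_infix {l : ℕ} {σ τ : List Bool} (h : τ ∈ bl l σ) : τ <:+: σ := by
  simp only [bl, Finset.mem_image, Finset.mem_range] at h
  obtain ⟨k, hk, rfl⟩ := h
  exact (List.take_prefix _ _).isInfix.trans (List.drop_suffix _ _).isInfix

/-- concatenations of `n` strings from `S` -/
def TT (S : Finset (List Bool)) : ℕ → Finset (List Bool)
  | 0 => {[]}
  | n + 1 => Finset.image₂ (fun a b => a ++ b) S (TT S n)

theorem card_TT (S : Finset (List Bool)) (n : ℕ) : (TT S n).card ≤ S.card ^ n := by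
  induction n with
  | zero => simp [TT]
  | succ n ih =>
    calc (TT S (n + 1)).card ≤ S.card * (TT S n).card := Finset.card_image₂_le _ _ _
      _ ≤ S.card * S.card ^ n := Nat.mul_le_mul_left _ ih
      _ = S.card ^ (n + 1) := by ring

theorem mem_TT {S : Finset (List Bool)} {l : ℕ} (n : ℕ) (τ : List Bool) (hl : τ.length = n * l)
    (h : ∀ k < n, (τ.drop (k * l)).take l ∈ S) : τ ∈ TT S n := by
  induction n generalizing τ with
  | zero =>
    simp only [Nat.zero_mul, List.length_eq_zero_iff] at hl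
    simp [TT, hl]
  | succ n ih =>
    simp only [TT, Finset.mem_image₂]
    refine ⟨τ.take l, ?_, τ.drop l, ih _ ?_ ?_, List.take_append_drop _ _⟩
    · have := h 0 (by omega)
      simpa using this
    · rw [List.length_drop, hl, Nat.succ_mul]; omega
    · intro k hk
      have := h (k + 1) (by omega)
      rw [List.drop_drop]
      have e : l + k * l = (k + 1) * l := by ring
      rw [e]; exact this

theorem bl_bl {l n : ℕ} (hl : 0 < l) {σ τ : List Bool} (h : τ ∈ bl (n * l) σ) (k : ℕ) (hk : k < n) :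
    (τ.drop (k * l)).take l ∈ bl l σ := by
  simp only [bl, Finset.mem_image, Finset.mem_range] at h ⊢
  obtain ⟨k', hk', rfl⟩ := h
  have hnl : 0 < n * l := Nat.mul_pos (by omega) hl
  rw [lt_div_iff_aux hnl] at hk'
  refine ⟨k' * n + k, ?_, ?_⟩
  · rw [lt_div_iff_aux hl]
    refine le_trans ?_ hk'
    calc (k' * n + k + 1) * l ≤ (k' * n + n) * l := Nat.mul_le_mul_right _ (by omega)
      _ = (k' + 1) * (n * l) := by ring
  · rw [List.drop_take, List.take_take, List.drop_drop]
    have e1 : k' * (n * l) + k * l = (k' * n + k) * l := by ring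
    have e2 : min l (n * l - k * l) = l := by
      have : (k + 1) * l ≤ n * l := by gcongr; omega
      have e3 : (k + 1) * l = k * l + l := by ring
      omega
    rw [e1, e2]

theorem mem_TT_bl {l n : ℕ} (hl : 0 < l) (hn : 0 < n) {σ τ : List Bool} (h : τ ∈ bl (n * l) σ) :
    τ ∈ TT (bl l σ) n :=
  mem_TT n τ (bl_length (Nat.mul_pos hn hl) h) (fun k hk => bl_bl hl h k hk)

/-- the exponents -/
def ee (r a : ℕ) : ℕ → ℕ
  | 0 => 1
  | j + 1 => (r - (j + 1)) * dd r a j

/-- the number of blocks -/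
def nn (r a j : ℕ) : ℕ := r * 2 ^ lev r a j * a

theorem ee_mul (r a j : ℕ) (hj : j < r) : ee r a j * nn r a j = ee r a (j + 1) + dd r a j := by
  obtain ⟨s, rfl⟩ : ∃ s, r = j + 1 + s := ⟨r - (j + 1), by omega⟩
  cases j with
  | zero =>
    simp only [ee, nn, dd, lev]
    simp only [zero_add, Nat.add_sub_cancel_left]
    ring
  | succ j =>
    have h1 : ee (j + 1 + 1 + s) a (j + 1) = (s + 1) * dd (j + 1 + 1 + s) a j := by
      simp only [ee]; congr 1; omega
    have h2 : ee (j + 1 + 1 + s) a (j + 1 + 1) = s * dd (j + 1 + 1 + s) a (j + 1) := by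
      simp only [ee]; congr 1; omega
    have h3 : dd (j + 1 + 1 + s) a (j + 1)
        = dd (j + 1 + 1 + s) a j * nn (j + 1 + 1 + s) a (j + 1) := by
      conv_lhs => unfold dd
      rw [lev_succ]
      unfold nn
      rw [lev_succ]
      ring
    rw [h1, h2, h3]; ring

theorem ee_last (r a : ℕ) (hr : 0 < r) : ee r a r = 0 := by
  obtain ⟨s, rfl⟩ : ∃ s, r = s + 1 := ⟨r - 1, by omega⟩
  simp [ee]

theorem exists_good {r a : ℕ} (hr : 0 < r) (ha : 0 < a) {σ : List Bool}
    (hσ : σ.length = lev r a (r + 1)) :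
    ∃ j ≤ r, (bl (lev r a j) σ).card ≤ 2 ^ ee r a j ∧
      2 ^ (ee r a j * nn r a j) ≤ (bl (lev r a (j + 1)) σ).card * 2 ^ dd r a j := by
  by_cases h : ∃ j < r, (bl (lev r a j) σ).card ≤ 2 ^ ee r a j ∧
      ¬ (bl (lev r a (j + 1)) σ).card ≤ 2 ^ ee r a (j + 1)
  · obtain ⟨j, hj, h1, h2⟩ := h
    refine ⟨j, hj.le, h1, ?_⟩
    rw [ee_mul r a j hj, pow_add]
    gcongr
    omega
  · push Not at h
    have h0 : (bl (lev r a 0) σ).card ≤ 2 ^ ee r a 0 := by
      have : bl (lev r a 0) σ ⊆ FS 1 := by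
        intro τ hτ
        rw [mem_FS]
        exact bl_length Nat.one_pos hτ
      calc _ ≤ (FS 1).card := Finset.card_le_card this
        _ = 2 ^ 1 := card_FS 1
    have hall : ∀ j ≤ r, (bl (lev r a j) σ).card ≤ 2 ^ ee r a j := by
      intro j
      induction j with
      | zero => intro _; exact h0
      | succ j ih => intro hj; exact h j (by omega) (ih (by omega))
    refine ⟨r, le_refl _, hall r le_rfl, ?_⟩
    rw [ee_last r a hr, zero_mul, pow_zero]
    have : σ ∈ bl (lev r a (r + 1)) σ := by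
      simp only [bl, Finset.mem_image, Finset.mem_range]
      refine ⟨0, ?_, ?_⟩
      · rw [hσ, Nat.div_self (lev_pos hr ha _)]; exact Nat.one_pos
      · rw [Nat.zero_mul, List.drop_zero, ← hσ, List.take_length]
    have h1 : 0 < (bl (lev r a (r + 1)) σ).card := Finset.card_pos.2 ⟨σ, this⟩
    exact Nat.mul_pos h1 (by positivity)

open Classical in
theorem comb_level {r a : ℕ} (hr : 0 < r) (ha : 0 < a) (μ : List Bool → ℝ) (hμ : ∀ σ, 0 ≤ μ σ)
    (G : Finset (List Bool)) (j : ℕ) (q : ℝ) (hq0 : 0 ≤ q)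
    (hG : ∀ σ ∈ G, (bl (lev r a j) σ).card ≤ 2 ^ ee r a j ∧
      2 ^ (ee r a j * nn r a j) ≤ (bl (lev r a (j + 1)) σ).card * 2 ^ dd r a j)
    (hq : ∀ τ, τ.length = lev r a (j + 1) → ∑ σ ∈ G with τ <:+: σ, μ σ ≤ q) :
    ∑ σ ∈ G, μ σ ≤ 2 ^ (2 ^ lev r a j) * (2 ^ dd r a j * q) := by
  have hl := lev_pos hr ha j
  have hn : 0 < nn r a j := by unfold nn; positivity
  have hlev : lev r a (j + 1) = nn r a j * lev r a j := lev_succ' r a j
  have hmaps : ∀ σ ∈ G, bl (lev r a j) σ ∈ (FS (lev r a j)).powerset := by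
    intro σ _
    rw [Finset.mem_powerset]
    intro τ hτ
    rw [mem_FS]; exact bl_length hl hτ
  rw [← Finset.sum_fiberwise_of_maps_to hmaps]
  have hfib : ∀ S ∈ (FS (lev r a j)).powerset,
      ∑ σ ∈ G with bl (lev r a j) σ = S, μ σ ≤ 2 ^ dd r a j * q := by
    intro S _
    by_cases hne : ∃ σ ∈ G, bl (lev r a j) σ = S
    · have hcard : (TT S (nn r a j)).card ≤ 2 ^ (ee r a j * nn r a j) := by
        obtain ⟨σ, hσ, hS⟩ := hne
        calc (TT S (nn r a j)).card ≤ S.card ^ nn r a j := card_TT _ _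
          _ ≤ (2 ^ ee r a j) ^ nn r a j := by
            gcongr; rw [← hS]; exact (hG σ hσ).1
          _ = _ := by rw [pow_mul]
      have h1 : ∀ σ ∈ G.filter (fun σ => bl (lev r a j) σ = S),
          (2 : ℝ) ^ (ee r a j * nn r a j) * μ σ ≤
            2 ^ dd r a j * ∑ τ ∈ TT S (nn r a j), if τ <:+: σ then μ σ else 0 := by
        intro σ hσ
        rw [Finset.mem_filter] at hσ
        obtain ⟨hσG, hσS⟩ := hσ
        have h2 := (hG σ hσG).2
        have h3 : bl (lev r a (j + 1)) σ ⊆ (TT S (nn r a j)).filter (fun τ => τ <:+: σ) := by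
          intro τ hτ
          rw [Finset.mem_filter]
          refine ⟨?_, bl_infix hτ⟩
          rw [hlev] at hτ
          rw [← hσS]
          exact mem_TT_bl hl hn hτ
        have h4 : ((bl (lev r a (j + 1)) σ).card : ℝ) * μ σ
            ≤ ∑ τ ∈ TT S (nn r a j), if τ <:+: σ then μ σ else 0 := by
          rw [← Finset.sum_filter, Finset.sum_const, nsmul_eq_mul]
          have := Finset.card_le_card h3
          have h5 : ((bl (lev r a (j + 1)) σ).card : ℝ)
            ≤ (((TT S (nn r a j)).filter (fun τ => τ <:+: σ)).card : ℝ) := by exact_mod_cast this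
          exact mul_le_mul_of_nonneg_right h5 (hμ σ)
        have h6 : (2 : ℝ) ^ (ee r a j * nn r a j)
            ≤ ((bl (lev r a (j + 1)) σ).card : ℝ) * 2 ^ dd r a j := by exact_mod_cast h2
        calc (2 : ℝ) ^ (ee r a j * nn r a j) * μ σ
            ≤ (((bl (lev r a (j + 1)) σ).card : ℝ) * 2 ^ dd r a j) * μ σ :=
              mul_le_mul_of_nonneg_right h6 (hμ σ)
          _ = 2 ^ dd r a j * (((bl (lev r a (j + 1)) σ).card : ℝ) * μ σ) := by ring
          _ ≤ _ := by gcongr
      have h7 : (2 : ℝ) ^ (ee r a j * nn r a j) * ∑ σ ∈ G with bl (lev r a j) σ = S, μ σ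
          ≤ 2 ^ dd r a j * (2 ^ (ee r a j * nn r a j) * q) := by
        rw [Finset.mul_sum]
        refine le_trans (Finset.sum_le_sum h1) ?_
        rw [← Finset.mul_sum, Finset.sum_comm]
        have h8 : ∀ τ ∈ TT S (nn r a j),
            ∑ σ ∈ G with bl (lev r a j) σ = S, (if τ <:+: σ then μ σ else 0) ≤ q := by
          intro τ hτ
          by_cases hlen : τ.length = lev r a (j + 1)
          · refine le_trans ?_ (hq τ hlen)
            rw [← Finset.sum_filter]
            refine Finset.sum_le_sum_of_subset_of_nonneg ?_ (fun σ _ _ => hμ σ)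
            intro σ hσ
            simp only [Finset.mem_filter] at hσ ⊢
            exact ⟨hσ.1.1, hσ.2⟩
          · exfalso
            apply hlen
            rw [hlev]
            obtain ⟨σ, hσ, hS⟩ := hne
            have hSlen : ∀ x ∈ S, x.length = lev r a j := by
              intro x hx
              rw [← hS] at hx
              exact bl_length hl hx
            clear h1 hcard hlen
            generalize nn r a j = n at hτ
            induction n generalizing τ with
            | zero => simp only [TT, Finset.mem_singleton] at hτ; subst hτ; simp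
            | succ n ih =>
              simp only [TT, Finset.mem_image₂] at hτ
              obtain ⟨x, hx, y, hy, rfl⟩ := hτ
              rw [List.length_append, hSlen x hx, ih y hy]; ring
        have h9 := Finset.sum_le_card_nsmul _ _ _ h8
        rw [nsmul_eq_mul] at h9
        have h10 : ((TT S (nn r a j)).card : ℝ) ≤ 2 ^ (ee r a j * nn r a j) := by
          exact_mod_cast hcard
        gcongr
        refine le_trans h9 ?_
        gcongr
      have h11 : (0 : ℝ) < 2 ^ (ee r a j * nn r a j) := by positivity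
      have h12 : (2 : ℝ) ^ (ee r a j * nn r a j) * ∑ σ ∈ G with bl (lev r a j) σ = S, μ σ
          ≤ 2 ^ (ee r a j * nn r a j) * (2 ^ dd r a j * q) := by
        refine le_trans h7 (le_of_eq ?_); ring
      exact le_of_mul_le_mul_left h12 h11
    · have : G.filter (fun σ => bl (lev r a j) σ = S) = ∅ := by
        rw [Finset.filter_eq_empty_iff]
        intro σ hσ h
        exact hne ⟨σ, hσ, h⟩
      rw [this, Finset.sum_empty]
      positivity
  have h := Finset.sum_le_card_nsmul _ _ _ hfib
  rw [nsmul_eq_mul, Finset.card_powerset, card_FS] at h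
  push_cast at h
  exact h

open Classical in
/-- the combinatorial lemma -/
theorem comb {r a : ℕ} (hr : 0 < r) (ha : 0 < a) (μ : List Bool → ℝ) (hμ : ∀ σ, 0 ≤ μ σ)
    (G : Finset (List Bool)) (hG : ∀ σ ∈ G, σ.length = lev r a (r + 1))
    (q : ℕ → ℝ) (hq0 : ∀ j, 0 ≤ q j)
    (hq : ∀ j ≤ r, ∀ τ, τ.length = lev r a (j + 1) → ∑ σ ∈ G with τ <:+: σ, μ σ ≤ q j) :
    ∑ σ ∈ G, μ σ ≤ ∑ j ∈ Finset.range (r + 1), 2 ^ (2 ^ lev r a j) * (2 ^ dd r a j * q j) := by
  set good : ℕ → List Bool → Prop := fun j σ => (bl (lev r a j) σ).card ≤ 2 ^ ee r a j ∧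
      2 ^ (ee r a j * nn r a j) ≤ (bl (lev r a (j + 1)) σ).card * 2 ^ dd r a j with hgood
  have h1 : ∑ σ ∈ G, μ σ ≤ ∑ j ∈ Finset.range (r + 1), ∑ σ ∈ G with good j σ, μ σ := by
    have h2 : ∀ σ ∈ G, μ σ ≤ ∑ j ∈ Finset.range (r + 1), if good j σ then μ σ else 0 := by
      intro σ hσ
      obtain ⟨j, hj, hgj⟩ := exists_good hr ha (hG σ hσ)
      have h3 : (if good j σ then μ σ else 0) = μ σ := if_pos hgj
      refine le_trans (le_of_eq h3.symm) ?_
      refine Finset.single_le_sum (f := fun j => if good j σ then μ σ else 0) ?_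
        (Finset.mem_range.2 (by omega))
      intro i _
      split_ifs
      · exact hμ σ
      · exact le_rfl
    refine le_trans (Finset.sum_le_sum h2) ?_
    rw [Finset.sum_comm]
    refine Finset.sum_le_sum fun j _ => ?_
    rw [Finset.sum_filter]
  refine le_trans h1 (Finset.sum_le_sum fun j hj => ?_)
  rw [Finset.mem_range] at hj
  refine comb_level hr ha μ hμ _ j (q j) (hq0 j) ?_ ?_
  · intro σ hσ
    rw [Finset.mem_filter] at hσ
    exact hσ.2
  · intro τ hτ
    refine le_trans ?_ (hq j (by omega) τ hτ)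
    refine Finset.sum_le_sum_of_subset_of_nonneg ?_ (fun σ _ _ => hμ σ)
    intro σ hσ
    simp only [Finset.mem_filter] at hσ ⊢
    exact ⟨hσ.1.1, hσ.2⟩

end Pool.Agent.H561R3.SC
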