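import Mathlib
import Pool.Agent.Helper227.KC2
import Pool.Agent.Helper227.SOne
import Pool.Agent.H561R3.Prim
import Pool.Agent.H561R3.SC.Comb

set_option autoImplicit false

namespace Pool.Agent.H561R3.SC

open Encodable Pool.Agent.Helper227 Pool.Agent.H561R3

open Classical

/-- continuous semimeasure -/
structure IsSemimeasure (ν : List Bool → ℝ) : Prop where
  nonneg : ∀ σ, 0 ≤ ν σ
  root : ν [] ≤ 1
  split : ∀ σ, ν (σ ++ [false]) + ν (σ ++ [true]) ≤ ν σ

/-- (uniformly) left-c.e.: the lower rational cuts are uniformly c.e. -/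
def LeftCE (ν : List Bool → ℝ) : Prop :=
  REPred fun x : List Bool × ℕ × ℕ => (x.2.1 : ℝ) / ((x.2.2 : ℝ) + 1) < ν x.1

theorem sum_FS_succR (n : ℕ) (g : List Bool → ℝ) :
    ∑ x ∈ FS (n + 1), g x = ∑ x ∈ FS n, (g (x ++ [false]) + g (x ++ [true])) := by
  unfold FS
  rw [List.sum_toFinset g (nodup_strs _), List.sum_toFinset _ (nodup_strs _)]
  show ((((strs n).flatMap (fun σ => [σ ++ [false], σ ++ [true]])).map g).sum = _)
  generalize strs n = L
  induction L with
  | nil => simp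
  | cons a L ih =>
    simp only [List.flatMap_cons, List.map_append, List.sum_append, ih, List.map_cons,
      List.map_nil, List.sum_cons, List.sum_nil]
    ring

theorem IsSemimeasure.sum_le {ν : List Bool → ℝ} (h : IsSemimeasure ν) (n : ℕ) :
    ∑ x ∈ FS n, ν x ≤ 1 := by
  induction n with
  | zero =>
    have h0 : FS 0 = {[]} := by
      ext x; rw [mem_FS]; simp
    rw [h0, Finset.sum_singleton]
    exact h.root
  | succ n ih =>
    rw [sum_FS_succR]
    exact (Finset.sum_le_sum fun x _ => h.split x).trans ih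

theorem IsSemimeasure.le_one {ν : List Bool → ℝ} (h : IsSemimeasure ν) (σ : List Bool) :
    ν σ ≤ 1 :=
  (Finset.single_le_sum (f := ν) (fun x _ => h.nonneg x) (mem_FS.2 rfl)).trans (h.sum_le σ.length)

/-- the starting lengths -/
def AA : ℕ → ℕ
  | 0 => 3
  | i + 1 => lev (i + 1) (AA i) (i + 2) + (2 * (i + 1) + 3)

theorem AA_ge (i : ℕ) : 2 * i + 3 ≤ AA i := by
  cases i with
  | zero => exact le_refl 3
  | succ i => simp only [AA]; omega

theorem AA_pos (i : ℕ) : 0 < AA i := by have := AA_ge i; omega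

/-- the length of the strings for the `i`-th strategy -/
def mm (i : ℕ) : ℕ := lev (i + 1) (AA i) (i + 2)

/-- the `j`-th block length of the `i`-th strategy -/
def LL (i j : ℕ) : ℕ := lev (i + 1) (AA i) (j + 1)

theorem LL_eq (i j : ℕ) : LL i j = (i + 1) * dd (i + 1) (AA i) j := rfl

theorem LL_div (i j : ℕ) : LL i j / (i + 1) = dd (i + 1) (AA i) j := by
  rw [LL_eq, Nat.mul_div_cancel_left _ (by omega)]

theorem dd_ge (i j : ℕ) : 4 * i + 6 ≤ dd (i + 1) (AA i) j := by
  have h1 := AA_ge i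
  have h2 := lev_pos (r := i + 1) (a := AA i) (by omega) (AA_pos i) j
  unfold dd
  have h3 : 2 ≤ 2 ^ lev (i + 1) (AA i) j := by
    calc 2 = 2 ^ 1 := rfl
      _ ≤ _ := Nat.pow_le_pow_right (by omega) h2
  calc 4 * i + 6 = 1 * 2 * (2 * i + 3) := by ring
    _ ≤ _ := by gcongr; omega

section q

variable (q : List Bool × ℕ × ℕ → ℕ → Prop)

/-- approximation from below, with denominator `2 ^ w` -/
noncomputable def mS (w t : ℕ) (σ : List Bool) : ℕ :=
  Nat.findGreatest (fun a => q (σ, a, 2 ^ w - 1) t) (2 ^ w)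

def alive (H : List (List Bool)) (σ : List Bool) : Prop := ∀ x ∈ H, ¬ x <:+: σ

noncomputable def SS (i t : ℕ) (H : List (List Bool)) (τ : List Bool) : ℕ :=
  ((strs (mm i)).map (fun σ => if alive H σ ∧ τ <:+: σ then mS q (mm i + i + 1) t σ else 0)).sum

/-- the factor -/
def fac (i : ℕ) (τ : List Bool) : ℕ := 2 ^ (i + 1) * (i + 2) * 2 ^ (2 * (τ.length / (i + 1)))

def cond (i t : ℕ) (H : List (List Bool)) (τ : List Bool) : Prop :=
  2 ^ (mm i + i + 1) ≤ SS q i t H τ * fac i τ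

def cands (i : ℕ) : List (List Bool) := (List.range (i + 2)).flatMap (fun j => strs (LL i j))

noncomputable def pick (i t : ℕ) (H : List (List Bool)) : Option (List Bool) :=
  (cands i)[(cands i).findIdx (fun τ => decide (cond q i t H τ))]?

noncomputable def stepH (i t : ℕ) (H : List (List Bool)) : List (List Bool) :=
  Option.casesOn (pick q i t H) H (fun τ => τ :: H)

noncomputable def Hs (i : ℕ) : ℕ → List (List Bool)
  | 0 => []
  | t + 1 => stepH q i t (Hs i t)

theorem mem_cands {i : ℕ} {τ : List Bool} : τ ∈ cands i ↔ ∃ j ≤ i + 1, τ.length = LL i j := by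
  simp only [cands, List.mem_flatMap, List.mem_range, mem_strs]
  constructor
  · rintro ⟨j, h1, h2⟩; exact ⟨j, by omega, h2⟩
  · rintro ⟨j, h1, h2⟩; exact ⟨j, by omega, h2⟩

theorem pick_some {i t : ℕ} {H : List (List Bool)} {τ : List Bool} (h : pick q i t H = some τ) :
    τ ∈ cands i ∧ cond q i t H τ := by
  unfold pick at h
  rw [List.getElem?_eq_some_iff] at h
  obtain ⟨h1, h2⟩ := h
  have h3 := List.findIdx_getElem (w := h1)
  rw [h2] at h3
  refine ⟨?_, by simpa using h3⟩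
  rw [← h2]
  exact List.getElem_mem h1

theorem pick_none {i t : ℕ} {H : List (List Bool)} (h : pick q i t H = none) :
    ∀ τ ∈ cands i, ¬ cond q i t H τ := by
  intro τ hτ hc
  unfold pick at h
  rw [List.getElem?_eq_none_iff] at h
  have : (cands i).findIdx (fun τ => decide (cond q i t H τ)) < (cands i).length := by
    rw [List.findIdx_lt_length]
    exact ⟨τ, hτ, by simpa using hc⟩
  omega

theorem Hs_some {i t : ℕ} {τ : List Bool} (h : pick q i t (Hs q i t) = some τ) :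
    Hs q i (t + 1) = τ :: Hs q i t := by
  show stepH q i t (Hs q i t) = _
  unfold stepH
  rw [h]

theorem Hs_none {i t : ℕ} (h : pick q i t (Hs q i t) = none) :
    Hs q i (t + 1) = Hs q i t := by
  show stepH q i t (Hs q i t) = _
  unfold stepH
  rw [h]

/-- every killed string was killed at some stage -/
theorem mem_Hs {i t : ℕ} {x : List Bool} (h : x ∈ Hs q i t) :
    ∃ s < t, pick q i s (Hs q i s) = some x := by
  induction t with
  | zero => simp [Hs] at h
  | succ t ih =>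
    rcases hp : pick q i t (Hs q i t) with _ | τ
    · rw [Hs_none q hp] at h
      obtain ⟨s, h1, h2⟩ := ih h
      exact ⟨s, by omega, h2⟩
    · rw [Hs_some q hp, List.mem_cons] at h
      rcases h with h | h
      · exact ⟨t, by omega, by rw [hp, h]⟩
      · obtain ⟨s, h1, h2⟩ := ih h
        exact ⟨s, by omega, h2⟩

/-- the requests -/
noncomputable def req (n : ℕ) : Option (ℕ × List Bool) :=
  (pick q n.unpair.1 n.unpair.2 (Hs q n.unpair.1 n.unpair.2)).map
    (fun τ => (3 * (τ.length / (n.unpair.1 + 1)), τ))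

end q

section analysis

variable {q : List Bool × ℕ × ℕ → ℕ → Prop} {ν : List Bool → ℝ} (hν : IsSemimeasure ν)
  (hm : ∀ a m n, m ≤ n → q a m → q a n)
  (he : ∀ x : List Bool × ℕ × ℕ, (x.2.1 : ℝ) / ((x.2.2 : ℝ) + 1) < ν x.1 ↔ ∃ n, q x n)

include hν he in
theorem mS_le (w t : ℕ) (σ : List Bool) : (mS q w t σ : ℝ) / 2 ^ w ≤ ν σ := by
  unfold mS
  rcases Nat.eq_zero_or_pos (Nat.findGreatest (fun a => q (σ, a, 2 ^ w - 1) t) (2 ^ w)) with h | h
  · rw [h]; simpa using hν.nonneg σ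
  · have h1 := Nat.findGreatest_of_ne_zero (P := fun a => q (σ, a, 2 ^ w - 1) t) rfl
      (Nat.pos_iff_ne_zero.1 h)
    have h2 := (he (σ, _, 2 ^ w - 1)).2 ⟨t, h1⟩
    simp only at h2
    have h3 : (((2 ^ w - 1 : ℕ) : ℝ) + 1) = 2 ^ w := by
      have : 1 ≤ 2 ^ w := Nat.one_le_two_pow
      push_cast [this]; ring
    rw [h3] at h2
    exact h2.le

include hm in
theorem mS_mono (w : ℕ) (σ : List Bool) {s t : ℕ} (h : s ≤ t) : mS q w s σ ≤ mS q w t σ := by
  unfold mS
  exact Nat.findGreatest_mono (fun a ha => hm _ _ _ h ha) le_rfl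

include hν hm he in
theorem mS_lim (w : ℕ) (σ : List Bool) :
    ∃ T, ∀ t ≥ T, ν σ ≤ ((mS q w t σ : ℝ) + 1) / 2 ^ w := by
  -- the largest `a ≤ 2 ^ w` with `a / 2 ^ w < ν σ`
  have h3 : (((2 ^ w - 1 : ℕ) : ℝ) + 1) = 2 ^ w := by
    have : 1 ≤ 2 ^ w := Nat.one_le_two_pow
    push_cast [this]; ring
  set g := Nat.findGreatest (fun a => (a : ℝ) / 2 ^ w < ν σ) (2 ^ w) with hg
  have hub : ν σ ≤ ((g : ℝ) + 1) / 2 ^ w := by
    by_contra hc
    push Not at hc
    by_cases hgw : g + 1 ≤ 2 ^ w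
    · have := Nat.le_findGreatest (P := fun a => (a : ℝ) / 2 ^ w < ν σ) hgw
        (by push_cast; exact hc)
      omega
    · have h1 : (2 : ℝ) ^ w < g + 1 := by
        have : 2 ^ w < g + 1 := by omega
        exact_mod_cast this
      have h2 := hν.le_one σ
      have h4 : (1 : ℝ) < ((g : ℝ) + 1) / 2 ^ w := by
        rw [lt_div_iff₀ (by positivity)]; linarith
      linarith
  rcases Nat.eq_zero_or_pos g with h | h
  · refine ⟨0, fun t _ => hub.trans ?_⟩
    rw [h]
    gcongr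
    simp
  · have h1 := Nat.findGreatest_of_ne_zero (P := fun a => (a : ℝ) / 2 ^ w < ν σ) hg.symm
      (Nat.pos_iff_ne_zero.1 h)
    obtain ⟨T, hT⟩ := (he (σ, g, 2 ^ w - 1)).1 (by simp only; rw [h3]; exact h1)
    refine ⟨T, fun t ht => hub.trans ?_⟩
    have h4 : g ≤ mS q w t σ := by
      unfold mS
      exact Nat.le_findGreatest (Nat.findGreatest_le _) (hm _ _ _ ht hT)
    gcongr

theorem SS_eq (i t : ℕ) (H : List (List Bool)) (τ : List Bool) :
    SS q i t H τ = ∑ σ ∈ (FS (mm i)).filter (fun σ => alive H σ ∧ τ <:+: σ),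
      mS q (mm i + i + 1) t σ := by
  unfold SS
  rw [← sum_FS, Finset.sum_filter]

/-- the weight attached to a killed string -/
noncomputable def qw (i : ℕ) (τ : List Bool) : ℝ := 1 / (fac i τ : ℝ)

theorem fac_pos (i : ℕ) (τ : List Bool) : 0 < fac i τ := by unfold fac; positivity

theorem qw_pos (i : ℕ) (τ : List Bool) : 0 < qw i τ := by
  have := fac_pos i τ
  unfold qw; positivity

include hν he in
theorem cond_mass {i t : ℕ} {H : List (List Bool)} {τ : List Bool} (h : cond q i t H τ) :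
    qw i τ ≤ ∑ σ ∈ (FS (mm i)).filter (fun σ => alive H σ ∧ τ <:+: σ), ν σ := by
  unfold cond at h
  rw [SS_eq] at h
  have h1 : ((2 : ℝ) ^ (mm i + i + 1)) ≤ (∑ σ ∈ (FS (mm i)).filter
      (fun σ => alive H σ ∧ τ <:+: σ), (mS q (mm i + i + 1) t σ : ℝ)) * fac i τ := by
    exact_mod_cast h
  have h2 : (∑ σ ∈ (FS (mm i)).filter (fun σ => alive H σ ∧ τ <:+: σ),
      (mS q (mm i + i + 1) t σ : ℝ)) ≤ 2 ^ (mm i + i + 1) *
        ∑ σ ∈ (FS (mm i)).filter (fun σ => alive H σ ∧ τ <:+: σ), ν σ := by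
    rw [Finset.mul_sum]
    refine Finset.sum_le_sum fun σ _ => ?_
    have := mS_le hν he (mm i + i + 1) t σ
    rw [div_le_iff₀ (by positivity)] at this
    linarith
  have h3 : (0 : ℝ) < fac i τ := by exact_mod_cast fac_pos i τ
  have h4 : ((2 : ℝ) ^ (mm i + i + 1)) * 1 ≤ 2 ^ (mm i + i + 1) *
      ((∑ σ ∈ (FS (mm i)).filter (fun σ => alive H σ ∧ τ <:+: σ), ν σ) * fac i τ) := by
    calc ((2 : ℝ) ^ (mm i + i + 1)) * 1 ≤ (∑ σ ∈ (FS (mm i)).filter
          (fun σ => alive H σ ∧ τ <:+: σ), (mS q (mm i + i + 1) t σ : ℝ)) * fac i τ :=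
            le_of_eq_of_le (mul_one _) h1
      _ ≤ (2 ^ (mm i + i + 1) * ∑ σ ∈ (FS (mm i)).filter
          (fun σ => alive H σ ∧ τ <:+: σ), ν σ) * fac i τ :=
            mul_le_mul_of_nonneg_right h2 h3.le
      _ = _ := by ring
  have h5 := le_of_mul_le_mul_left h4 (by positivity)
  unfold qw
  rw [div_le_iff₀ h3]
  exact h5

/-- the mass killed so far -/
noncomputable def dead (ν : List Bool → ℝ) (q : List Bool × ℕ × ℕ → ℕ → Prop) (i t : ℕ) : ℝ :=
  ∑ σ ∈ (FS (mm i)).filter (fun σ => ¬ alive (Hs q i t) σ), ν σ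

/-- the weights of the requests of the `i`-th strategy -/
noncomputable def qs (q : List Bool × ℕ × ℕ → ℕ → Prop) (i s : ℕ) : ℝ :=
  (pick q i s (Hs q i s)).elim 0 (qw i)

include hν he in
theorem sum_qs (i t : ℕ) : ∑ s ∈ Finset.range t, qs q i s ≤ dead ν q i t := by
  induction t with
  | zero =>
    rw [Finset.sum_range_zero]
    exact Finset.sum_nonneg fun σ _ => hν.nonneg σ
  | succ t ih =>
    rw [Finset.sum_range_succ]
    rcases hp : pick q i t (Hs q i t) with _ | τ
    · have h1 : dead ν q i (t + 1) = dead ν q i t := by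
        unfold dead; rw [Hs_none q hp]
      rw [h1]
      unfold qs at ih ⊢
      rw [hp]
      simpa using ih
    · have h1 : dead ν q i t + ∑ σ ∈ (FS (mm i)).filter
          (fun σ => alive (Hs q i t) σ ∧ τ <:+: σ), ν σ ≤ dead ν q i (t + 1) := by
        unfold dead
        rw [← Finset.sum_union]
        · refine Finset.sum_le_sum_of_subset_of_nonneg ?_ (fun σ _ _ => hν.nonneg σ)
          intro σ hσ
          rw [Finset.mem_union, Finset.mem_filter, Finset.mem_filter] at hσ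
          rw [Finset.mem_filter, Hs_some q hp]
          rcases hσ with ⟨hF, hσ⟩ | ⟨hF, hσ⟩
          · refine ⟨hF, fun hal => hσ fun x hx => hal x (List.mem_cons_of_mem _ hx)⟩
          · exact ⟨hF, fun hal => hal τ List.mem_cons_self hσ.2⟩
        · rw [Finset.disjoint_left]
          intro σ h2 h3
          rw [Finset.mem_filter] at h2 h3
          exact h2.2 h3.2.1
      have h2 := cond_mass hν he (pick_some q hp).2
      have h3 : qs q i t = qw i τ := by unfold qs; rw [hp]; rfl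
      rw [h3]
      linarith

include hν in
theorem dead_le (i t : ℕ) : dead ν q i t ≤ 1 := by
  refine le_trans ?_ (hν.sum_le (mm i))
  unfold dead
  exact Finset.sum_le_sum_of_subset_of_nonneg (Finset.filter_subset _ _)
    (fun σ _ _ => hν.nonneg σ)

theorem qs_nonneg (i s : ℕ) : 0 ≤ qs q i s := by
  unfold qs
  rcases pick q i s (Hs q i s) with _ | τ
  · exact le_rfl
  · exact (qw_pos i τ).le

/-- the weights of the requests -/
noncomputable def ws (q : List Bool × ℕ × ℕ → ℕ → Prop) (i s : ℕ) : ℝ :=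
  (pick q i s (Hs q i s)).elim 0 (fun τ => (1 / 2 : ℝ) ^ (3 * (τ.length / (i + 1))))

theorem ws_nonneg (i s : ℕ) : 0 ≤ ws q i s := by
  unfold ws
  rcases pick q i s (Hs q i s) with _ | τ
  · exact le_rfl
  · show (0 : ℝ) ≤ (1 / 2 : ℝ) ^ (3 * (τ.length / (i + 1)))
    positivity

theorem ws_le (i s : ℕ) : ws q i s ≤ (1 / 2 : ℝ) ^ (i + 1) * qs q i s := by
  unfold ws qs
  rcases hp : pick q i s (Hs q i s) with _ | τ
  · simp
  · show (1 / 2 : ℝ) ^ (3 * (τ.length / (i + 1))) ≤ (1 / 2 : ℝ) ^ (i + 1) * qw i τ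
    obtain ⟨j, hj, hlen⟩ := mem_cands.1 (pick_some q hp).1
    have h1 : τ.length / (i + 1) = dd (i + 1) (AA i) j := by rw [hlen, LL_div]
    have h2 := dd_ge i j
    unfold qw fac
    rw [h1]
    set x := dd (i + 1) (AA i) j
    have h3 : i + 2 ≤ 2 ^ (i + 2) := Nat.lt_two_pow_self.le
    have h4 : ((i : ℝ) + 2) ≤ 2 ^ (i + 2) := by exact_mod_cast h3
    have h5 : (2 : ℝ) ^ (i + 1) * (2 ^ (i + 1) * 2 ^ (i + 2) * 2 ^ (2 * x)) ≤ 2 ^ (3 * x) := by
      rw [← pow_add, ← pow_add, ← pow_add]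
      exact pow_le_pow_right₀ (by norm_num) (by omega)
    push_cast
    rw [one_div_pow, one_div_pow, one_div_mul_one_div]
    refine one_div_le_one_div_of_le (by positivity) ?_
    refine le_trans ?_ h5
    gcongr

theorem sum_ws (i t : ℕ) (hν : IsSemimeasure ν)
    (he : ∀ x : List Bool × ℕ × ℕ, (x.2.1 : ℝ) / ((x.2.2 : ℝ) + 1) < ν x.1 ↔ ∃ n, q x n) :
    ∑ s ∈ Finset.range t, ws q i s ≤ (1 / 2 : ℝ) ^ (i + 1) := by
  calc ∑ s ∈ Finset.range t, ws q i s
      ≤ ∑ s ∈ Finset.range t, (1 / 2 : ℝ) ^ (i + 1) * qs q i s :=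
        Finset.sum_le_sum fun s _ => ws_le i s
    _ = (1 / 2 : ℝ) ^ (i + 1) * ∑ s ∈ Finset.range t, qs q i s := by rw [Finset.mul_sum]
    _ ≤ (1 / 2 : ℝ) ^ (i + 1) * 1 := by
        gcongr
        exact (sum_qs hν he i t).trans (dead_le hν i t)
    _ = _ := mul_one _

include hν he in
theorem req_bound (n : ℕ) : ∑ k ∈ Finset.range n, KC.wr (req q) k ≤ 1 := by
  have h1 : ∀ k, KC.wr (req q) k = ws q k.unpair.1 k.unpair.2 := by
    intro k
    unfold KC.wr req ws
    rcases pick q k.unpair.1 k.unpair.2 (Hs q k.unpair.1 k.unpair.2) with _ | τ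
    · rfl
    · rfl
  have h2 : ∑ k ∈ Finset.range n, KC.wr (req q) k
      ≤ ∑ x ∈ Finset.range n ×ˢ Finset.range n, ws q x.1 x.2 := by
    have hinj : Set.InjOn Nat.unpair (Finset.range n : Finset ℕ) := by
      intro a _ b _ hab
      rw [← Nat.pair_unpair a, hab, Nat.pair_unpair]
    rw [Finset.sum_congr rfl (fun k _ => h1 k)]
    rw [← Finset.sum_image (f := fun x : ℕ × ℕ => ws q x.1 x.2) hinj]
    refine Finset.sum_le_sum_of_subset_of_nonneg ?_ (fun x _ _ => ws_nonneg _ _)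
    intro x hx
    rw [Finset.mem_image] at hx
    obtain ⟨k, hk, rfl⟩ := hx
    rw [Finset.mem_range] at hk
    rw [Finset.mem_product, Finset.mem_range, Finset.mem_range]
    exact ⟨lt_of_le_of_lt (Nat.unpair_left_le k) hk, lt_of_le_of_lt (Nat.unpair_right_le k) hk⟩
  refine h2.trans ?_
  rw [Finset.sum_product]
  refine (Finset.sum_le_sum fun i _ => sum_ws i n hν he).trans ?_
  have h3 : ∀ n : ℕ, ∑ i ∈ Finset.range n, (1 / 2 : ℝ) ^ (i + 1) = 1 - (1 / 2) ^ n := by
    intro n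
    induction n with
    | zero => simp
    | succ n ih => rw [Finset.sum_range_succ, ih, pow_succ]; ring
  rw [h3]
  have : (0 : ℝ) ≤ (1 / 2) ^ n := by positivity
  linarith

include hν he in
/-- there are arbitrarily late stages without a request -/
theorem exists_quiet (i T : ℕ) : ∃ t ≥ T, pick q i t (Hs q i t) = none := by
  by_contra hc
  push Not at hc
  -- a positive lower bound for the weights
  obtain ⟨c, hc0, hcl⟩ : ∃ c : ℝ, 0 < c ∧ ∀ τ ∈ cands i, c ≤ qw i τ := by
    generalize cands i = L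
    induction L with
    | nil => exact ⟨1, one_pos, by simp⟩
    | cons τ L ih =>
      obtain ⟨c, h1, h2⟩ := ih
      refine ⟨min c (qw i τ), lt_min h1 (qw_pos i τ), ?_⟩
      intro x hx
      rw [List.mem_cons] at hx
      rcases hx with rfl | hx
      · exact min_le_right _ _
      · exact (min_le_left _ _).trans (h2 x hx)
  obtain ⟨N, hN⟩ := exists_nat_gt (1 / c)
  have h1 : ∑ s ∈ Finset.range (T + N), qs q i s ≤ 1 := (sum_qs hν he i _).trans (dead_le hν i _)
  have h2 : ∑ s ∈ Finset.Ico T (T + N), c ≤ ∑ s ∈ Finset.Ico T (T + N), qs q i s := by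
    refine Finset.sum_le_sum fun s hs => ?_
    rw [Finset.mem_Ico] at hs
    obtain ⟨τ, hτ⟩ := Option.ne_none_iff_exists'.1 (hc s hs.1)
    unfold qs
    rw [hτ]
    exact hcl τ (pick_some q hτ).1
  have h3 : ∑ s ∈ Finset.Ico T (T + N), qs q i s ≤ ∑ s ∈ Finset.range (T + N), qs q i s := by
    refine Finset.sum_le_sum_of_subset_of_nonneg ?_ (fun s _ _ => qs_nonneg i s)
    intro s hs
    rw [Finset.mem_Ico] at hs
    exact Finset.mem_range.2 hs.2
  rw [Finset.sum_const, Nat.card_Ico, nsmul_eq_mul, Nat.add_sub_cancel_left] at h2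
  rw [div_lt_iff₀ hc0] at hN
  linarith

include hν hm he in
/-- at some stage the mass of the strings still alive is small -/
theorem exists_small (i : ℕ) :
    ∃ t, ∑ σ ∈ (FS (mm i)).filter (fun σ => alive (Hs q i t) σ), ν σ ≤ (1 / 2 : ℝ) ^ i := by
  -- a stage at which the approximations have settled
  have hT : ∃ T, ∀ t ≥ T, ∀ σ ∈ FS (mm i),
      ν σ ≤ ((mS q (mm i + i + 1) t σ : ℝ) + 1) / 2 ^ (mm i + i + 1) := by
    choose g hg using fun σ => mS_lim hν hm he (mm i + i + 1) σ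
    refine ⟨(FS (mm i)).sup g, fun t ht σ hσ => hg σ t ?_⟩
    exact (Finset.le_sup (f := g) hσ).trans ht
  obtain ⟨T, hT⟩ := hT
  obtain ⟨t, htT, ht⟩ := exists_quiet hν he i T
  refine ⟨t, ?_⟩
  set w := mm i + i + 1 with hw
  set G := (FS (mm i)).filter (fun σ => alive (Hs q i t) σ) with hG
  have hr : 0 < i + 1 := by omega
  have hcomb := comb (r := i + 1) (a := AA i) hr (AA_pos i) (fun σ => (mS q w t σ : ℝ) / 2 ^ w)
    (fun σ => by positivity) G (by
      intro σ hσ
      rw [hG, Finset.mem_filter, mem_FS] at hσ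
      exact hσ.1)
    (fun j => 1 / (2 ^ (i + 1) * ((i : ℝ) + 2) * 2 ^ (2 * dd (i + 1) (AA i) j)))
    (fun j => by positivity) (by
      intro j hj τ hτ
      have h1 := pick_none q ht τ (mem_cands.2 ⟨j, hj, hτ⟩)
      unfold cond at h1
      rw [not_le, SS_eq] at h1
      have h2 : τ.length / (i + 1) = dd (i + 1) (AA i) j := by
        rw [hτ]; exact LL_div i j
      unfold fac at h1
      rw [h2, ← hw] at h1
      have h3 : (∑ σ ∈ (FS (mm i)).filter (fun σ => alive (Hs q i t) σ ∧ τ <:+: σ),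
          (mS q w t σ : ℝ)) * (2 ^ (i + 1) * ((i : ℝ) + 2) * 2 ^ (2 * dd (i + 1) (AA i) j))
            < 2 ^ w := by exact_mod_cast h1
      rw [le_div_iff₀ (by positivity), ← Finset.sum_div, div_mul_eq_mul_div,
        div_le_one (by positivity)]
      refine le_of_eq_of_le ?_ h3.le
      congr 1
      rw [hG, Finset.filter_filter])
  -- evaluate the bound
  have h1 : ∑ j ∈ Finset.range (i + 1 + 1), (2 : ℝ) ^ (2 ^ lev (i + 1) (AA i) j) *
      (2 ^ dd (i + 1) (AA i) j *
        (1 / (2 ^ (i + 1) * ((i : ℝ) + 2) * 2 ^ (2 * dd (i + 1) (AA i) j)))) ≤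
      (1 / 2 : ℝ) ^ (i + 1) := by
    have h2 : ∀ j ∈ Finset.range (i + 1 + 1), (2 : ℝ) ^ (2 ^ lev (i + 1) (AA i) j) *
      (2 ^ dd (i + 1) (AA i) j *
        (1 / (2 ^ (i + 1) * ((i : ℝ) + 2) * 2 ^ (2 * dd (i + 1) (AA i) j)))) ≤
        (1 / 2 : ℝ) ^ (i + 1) / ((i : ℝ) + 2) := by
      intro j _
      have h3 := two_pow_le_dd hr (AA_pos i) j
      set x := dd (i + 1) (AA i) j
      have h4 : (2 : ℝ) ^ (2 ^ lev (i + 1) (AA i) j) ≤ 2 ^ x :=
        pow_le_pow_right₀ (by norm_num) h3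
      calc (2 : ℝ) ^ (2 ^ lev (i + 1) (AA i) j) *
            (2 ^ x * (1 / (2 ^ (i + 1) * ((i : ℝ) + 2) * 2 ^ (2 * x))))
          ≤ 2 ^ x * (2 ^ x * (1 / (2 ^ (i + 1) * ((i : ℝ) + 2) * 2 ^ (2 * x)))) := by
            gcongr
        _ = (1 / 2 : ℝ) ^ (i + 1) / ((i : ℝ) + 2) := by
            rw [two_mul, pow_add, one_div_pow]
            field_simp
            ring
    refine (Finset.sum_le_card_nsmul _ _ _ h2).trans ?_
    rw [Finset.card_range, nsmul_eq_mul]
    push_cast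
    have : (i : ℝ) + 1 + 1 = (i : ℝ) + 2 := by ring
    rw [this, mul_div_cancel₀]
    positivity
  have h2 : ∑ σ ∈ G, ν σ ≤ ∑ σ ∈ G, ((mS q w t σ : ℝ) / 2 ^ w + 1 / 2 ^ w) := by
    refine Finset.sum_le_sum fun σ hσ => ?_
    rw [hG, Finset.mem_filter] at hσ
    have := hT t htT σ hσ.1
    rw [← add_div]; exact this
  have h3 : ∑ σ ∈ G, (1 : ℝ) / 2 ^ w ≤ (1 / 2 : ℝ) ^ (i + 1) := by
    rw [Finset.sum_const, nsmul_eq_mul]
    have h4 : G.card ≤ 2 ^ mm i := by
      rw [← card_FS]; exact Finset.card_le_card (Finset.filter_subset _ _)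
    have h5 : (G.card : ℝ) ≤ 2 ^ mm i := by exact_mod_cast h4
    calc (G.card : ℝ) * (1 / 2 ^ w) ≤ 2 ^ mm i * (1 / 2 ^ w) := by gcongr
      _ = (1 / 2 : ℝ) ^ (i + 1) := by
        rw [hw, add_assoc, pow_add, one_div_pow]
        field_simp
  rw [Finset.sum_add_distrib] at h2
  have h6 : (1 / 2 : ℝ) ^ i = (1 / 2 : ℝ) ^ (i + 1) + (1 / 2 : ℝ) ^ (i + 1) := by
    rw [pow_succ]; ring
  rw [h6]
  exact h2.trans (add_le_add (hcomb.trans h1) h3)

end analysis

end Pool.Agent.H561R3.SC
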