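import Mathlib
import Pool.Agent.H561R3.SC.Strat
import Pool.Agent.H561R3.Om.Strat

set_option autoImplicit false

namespace Pool.Agent.H561R3.SC

open Encodable Pool.Agent.Helper227 Pool.Agent.H561R3

open Classical

variable {α : Type*} [Primcodable α]

theorem pr_lev : Primrec fun x : (ℕ × ℕ) × ℕ => lev x.1.1 x.1.2 x.2 := by
  have h : Primrec₂ fun (x : ℕ × ℕ) (j : ℕ) => lev x.1 x.2 j := by
    refine (Primrec.nat_rec (f := fun _ : ℕ × ℕ => 1)
      (g := fun (x : ℕ × ℕ) (p : ℕ × ℕ) => x.1 * (p.2 * 2 ^ p.2 * x.2)) (Primrec.const 1) ?_).of_eq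
      fun x j => ?_
    · refine (Primrec.nat_mul.comp (Primrec.fst.comp Primrec.fst) (Primrec.nat_mul.comp
        (Primrec.nat_mul.comp (Primrec.snd.comp Primrec.snd) (pr_pow.comp (Primrec.const 2)
          (Primrec.snd.comp Primrec.snd))) (Primrec.snd.comp Primrec.fst))).to₂
    · induction j with
      | zero => rfl
      | succ j ih => simp only [lev] at ih ⊢; rw [← ih]
  exact h

theorem pr_AA : Primrec AA := by
  have h0 : Primrec fun p : ℕ × ℕ => 2 * (p.1 + 1) + 3 :=
    Primrec.nat_add.comp (Primrec.nat_mul.comp (Primrec.const 2)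
      (Primrec.succ.comp Primrec.fst)) (Primrec.const 3)
  have h1 : Primrec fun p : ℕ × ℕ => lev (p.1 + 1) p.2 (p.1 + 2) :=
    pr_lev.comp (((Primrec.succ.comp Primrec.fst).pair
      Primrec.snd).pair (Primrec.succ.comp (Primrec.succ.comp Primrec.fst)))
  have h : Primrec₂ fun (i : ℕ) (a : ℕ) => lev (i + 1) a (i + 2) + (2 * (i + 1) + 3) :=
    Primrec.nat_add.comp h1 h0
  refine (Primrec.nat_rec₁ 3 h).of_eq fun n => ?_
  induction n with
  | zero => rfl
  | succ n ih => simp only [AA, ← ih]

theorem pr_mm : Primrec mm :=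
  pr_lev.comp (((Primrec.succ).pair pr_AA).pair (Primrec.succ.comp Primrec.succ))

theorem pr_LL : Primrec fun x : ℕ × ℕ => LL x.1 x.2 :=
  pr_lev.comp (((Primrec.succ.comp Primrec.fst).pair (pr_AA.comp Primrec.fst)).pair
    (Primrec.succ.comp Primrec.snd))

theorem pr_cands : Primrec cands := by
  unfold cands
  refine Primrec.list_flatMap (Primrec.list_range.comp (Primrec.succ.comp Primrec.succ)) ?_
  exact (pr_strs.comp pr_LL).to₂

theorem pr_isInfix : PrimrecPred fun x : List Bool × List Bool => x.1 <:+: x.2 := by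
  have h : PrimrecPred fun x : List Bool × List Bool =>
      ∃ k < x.2.length + 1, x.1 <+: x.2.drop k := by
    refine PP.ex_lt (α := List Bool × List Bool) (f := fun x => x.2.length + 1)
      (p := fun x k => x.1 <+: x.2.drop k) ?_
      (Primrec.succ.comp (Primrec.list_length.comp Primrec.snd))
    exact Om.pr_isPre.comp ((Primrec.fst.comp Primrec.fst).pair
      (Primrec.list_drop.comp Primrec.snd (Primrec.snd.comp Primrec.fst)))
  refine h.of_eq fun x => ?_
  constructor
  · rintro ⟨k, _, hk⟩
    exact hk.isInfix.trans (List.drop_suffix _ _).isInfix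
  · rintro ⟨s, t, hst⟩
    refine ⟨s.length, ?_, ?_⟩
    · rw [← hst, List.length_append, List.length_append]; omega
    · rw [← hst, List.append_assoc, List.drop_left]
      exact List.prefix_append _ _

variable {q : List Bool × ℕ × ℕ → ℕ → Prop}

theorem pr_mS (hq : PrimrecRel q) {w t : α → ℕ} {σ : α → List Bool} (hw : Primrec w)
    (ht : Primrec t) (hσ : Primrec σ) : Primrec fun a => mS q (w a) (t a) (σ a) := by
  unfold mS
  have h2 : Primrec fun a => 2 ^ w a := pr_pow.comp (Primrec.const 2) hw
  refine Primrec.nat_findGreatest (p := fun a r => q (σ a, r, 2 ^ w a - 1) (t a)) h2 ?_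
  exact hq.comp ((hσ.comp Primrec.fst).pair (Primrec.snd.pair
    (Primrec.nat_sub.comp (h2.comp Primrec.fst) (Primrec.const 1)))) (ht.comp Primrec.fst)

theorem pr_alive {H : α → List (List Bool)} {σ : α → List Bool} (hH : Primrec H)
    (hσ : Primrec σ) : PrimrecPred fun a => alive (H a) (σ a) := by
  unfold alive
  refine PP.all_mem (f := H) (p := fun a x => ¬ x <:+: σ a) ?_ hH
  exact PrimrecPred.not (pr_isInfix.comp (Primrec.snd.pair (hσ.comp Primrec.fst)))

theorem pr_SS (hq : PrimrecRel q) {i t : α → ℕ} {H : α → List (List Bool)} {τ : α → List Bool}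
    (hi : Primrec i) (ht : Primrec t) (hH : Primrec H) (hτ : Primrec τ) :
    Primrec fun a => SS q (i a) (t a) (H a) (τ a) := by
  unfold SS
  refine pr_sum (f := fun a => strs (mm (i a))) (g := fun a σ => if alive (H a) σ ∧ τ a <:+: σ then
    mS q (mm (i a) + i a + 1) (t a) σ else 0) (pr_strs.comp (pr_mm.comp hi)) ?_
  refine Primrec.ite (PrimrecPred.and ?_ ?_) ?_ (Primrec.const 0)
  · exact pr_alive (hH.comp Primrec.fst) Primrec.snd
  · exact pr_isInfix.comp ((hτ.comp Primrec.fst).pair Primrec.snd)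
  · refine pr_mS hq ?_ (ht.comp Primrec.fst) Primrec.snd
    exact (Primrec.succ.comp (Primrec.nat_add.comp (pr_mm.comp hi) hi)).comp Primrec.fst

theorem pr_fac {i : α → ℕ} {τ : α → List Bool} (hi : Primrec i) (hτ : Primrec τ) :
    Primrec fun a => fac (i a) (τ a) := by
  unfold fac
  refine Primrec.nat_mul.comp (Primrec.nat_mul.comp (pr_pow.comp (Primrec.const 2)
    (Primrec.succ.comp hi)) (Primrec.succ.comp (Primrec.succ.comp hi))) ?_
  exact pr_pow.comp (Primrec.const 2) (Primrec.nat_mul.comp (Primrec.const 2)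
    (Primrec.nat_div.comp (Primrec.list_length.comp hτ) (Primrec.succ.comp hi)))

theorem pr_cond (hq : PrimrecRel q) {i t : α → ℕ} {H : α → List (List Bool)} {τ : α → List Bool}
    (hi : Primrec i) (ht : Primrec t) (hH : Primrec H) (hτ : Primrec τ) :
    PrimrecPred fun a => cond q (i a) (t a) (H a) (τ a) := by
  unfold cond
  refine Primrec.nat_le.comp (pr_pow.comp (Primrec.const 2) ?_)
    (Primrec.nat_mul.comp (pr_SS hq hi ht hH hτ) (pr_fac hi hτ))
  exact Primrec.succ.comp (Primrec.nat_add.comp (pr_mm.comp hi) hi)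

theorem pr_pick (hq : PrimrecRel q) {i t : α → ℕ} {H : α → List (List Bool)}
    (hi : Primrec i) (ht : Primrec t) (hH : Primrec H) :
    Primrec fun a => pick q (i a) (t a) (H a) := by
  unfold pick
  have h2 : Primrec fun a => cands (i a) := pr_cands.comp hi
  refine Primrec.list_getElem?.comp h2 (Primrec.list_findIdx h2 ?_)
  exact (pr_cond hq (hi.comp Primrec.fst) (ht.comp Primrec.fst) (hH.comp Primrec.fst)
    Primrec.snd).decide

theorem pr_stepH (hq : PrimrecRel q) {i t : α → ℕ} {H : α → List (List Bool)}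
    (hi : Primrec i) (ht : Primrec t) (hH : Primrec H) :
    Primrec fun a => stepH q (i a) (t a) (H a) := by
  unfold stepH
  refine Primrec.option_casesOn (pr_pick hq hi ht hH) hH ?_
  exact Primrec.list_cons.comp Primrec.snd (hH.comp Primrec.fst)

theorem pr_Hs (hq : PrimrecRel q) : Primrec₂ (Hs q) := by
  refine (Primrec.nat_rec (f := fun _ : ℕ => ([] : List (List Bool)))
    (g := fun i (p : ℕ × List (List Bool)) => stepH q i p.1 p.2) (Primrec.const []) ?_).of_eq
    fun i t => ?_
  · exact pr_stepH hq Primrec.fst (Primrec.fst.comp Primrec.snd) (Primrec.snd.comp Primrec.snd)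
  · induction t with
    | zero => rfl
    | succ t ih => simp only [Hs] at ih ⊢; rw [← ih]

theorem pr_req (hq : PrimrecRel q) : Primrec (req q) := by
  unfold req
  have h1 : Primrec fun n : ℕ => n.unpair.1 := Primrec.fst.comp Primrec.unpair
  have h2 : Primrec fun n : ℕ => n.unpair.2 := Primrec.snd.comp Primrec.unpair
  refine Primrec.option_map (pr_pick hq h1 h2 ((pr_Hs hq).comp h1 h2)) ?_
  refine Primrec.pair ?_ Primrec.snd
  exact Primrec.nat_mul.comp (Primrec.const 3) (Primrec.nat_div.comp
    (Primrec.list_length.comp Primrec.snd) (Primrec.succ.comp (h1.comp Primrec.fst)))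

end Pool.Agent.H561R3.SC
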