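import Mathlib
import Pool.Agent.H561R3.SC.Prim

set_option autoImplicit false

namespace Pool.Agent.H561R3.SC

open Encodable Pool.Agent.Helper227 Pool.Agent.H561R3 Filter

open Classical

theorem lev_lt {r a : ℕ} (hr : 0 < r) (ha : 0 < a) (j : ℕ) : lev r a j < lev r a (j + 1) := by
  rw [lev_succ]
  have h1 := two_pow_le_dd hr ha j
  have h2 : lev r a j < 2 ^ lev r a j := Nat.lt_two_pow_self
  have h3 : dd r a j ≤ r * dd r a j := Nat.le_mul_of_pos_left _ hr
  omega

theorem lev_mono {r a : ℕ} (hr : 0 < r) (ha : 0 < a) : StrictMono (lev r a) :=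
  strictMono_nat_of_lt_succ (lev_lt hr ha)

theorem le_LL (i : ℕ) : AA i < LL i 0 := by
  have h := AA_pos i
  rw [LL_eq]
  unfold dd lev
  have : AA i * 1 < AA i * (2 * (i + 1)) := by
    apply Nat.mul_lt_mul_of_pos_left _ h
    omega
  calc AA i = AA i * 1 := by ring
    _ < AA i * (2 * (i + 1)) := this
    _ = _ := by ring

theorem LL_mono (i : ℕ) : StrictMono (LL i) := fun _ _ h =>
  lev_mono (by omega) (AA_pos i) (by omega)

theorem mm_eq (i : ℕ) : mm i = LL i (i + 1) := rfl

theorem LL_le_mm (i j : ℕ) (hj : j ≤ i + 1) : LL i j ≤ mm i := by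
  rw [mm_eq]; exact (LL_mono i).monotone hj

theorem mm_lt_AA (i : ℕ) : mm i < AA (i + 1) := by
  show mm i < lev (i + 1) (AA i) (i + 2) + (2 * (i + 1) + 3)
  unfold mm
  omega

theorem AA_lt_mm (i : ℕ) : AA i < mm i := lt_of_lt_of_le (le_LL i) (LL_le_mm i 0 (by omega))

theorem mm_mono : StrictMono mm :=
  strictMono_nat_of_lt_succ fun i => (mm_lt_AA i).trans (AA_lt_mm (i + 1))

theorem AA_mono : StrictMono AA :=
  strictMono_nat_of_lt_succ fun i => (AA_lt_mm i).trans (mm_lt_AA i)

theorem LL0_lt {i k : ℕ} (h : i < k) : mm i < LL k 0 := by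
  calc mm i < AA (i + 1) := mm_lt_AA i
    _ ≤ AA k := AA_mono.monotone h
    _ < LL k 0 := le_LL k

theorem LL0_mono : StrictMono fun i => LL i 0 := fun i _ h =>
  lt_of_le_of_lt (LL_le_mm i 0 (by omega)) (LL0_lt h)

/-- how many strategies have started -/
def rho (n : ℕ) : ℕ := ((List.range (n + 1)).map (fun i => if LL i 0 ≤ n then 1 else 0)).sum

theorem rho_eq (n : ℕ) : rho n = ((Finset.range (n + 1)).filter (fun i => LL i 0 ≤ n)).card := by
  unfold rho
  rw [Finset.card_filter, Finset.sum_range, ← List.sum_ofFn]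
  congr 1
  rw [List.ofFn_eq_map]
  refine List.ext_getElem (by simp) fun i h1 h2 => by simp

theorem rho_level {i j : ℕ} (hj : j ≤ i + 1) : rho (LL i j) = i + 1 := by
  rw [rho_eq]
  have : (Finset.range (LL i j + 1)).filter (fun k => LL k 0 ≤ LL i j) = Finset.range (i + 1) := by
    ext k
    rw [Finset.mem_filter, Finset.mem_range, Finset.mem_range]
    constructor
    · rintro ⟨_, h2⟩
      by_contra hk
      have h3 := LL0_lt (i := i) (k := k) (by omega)
      have h4 := LL_le_mm i j hj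
      omega
    · intro hk
      have h1 : LL k 0 ≤ LL i 0 := LL0_mono.monotone (by omega)
      have h2 : LL i 0 ≤ LL i j := (LL_mono i).monotone (by omega)
      have h3 := LL0_mono.id_le k
      simp only [id_eq] at h3
      constructor <;> omega
  rw [this, Finset.card_range]

theorem le_rho {R n : ℕ} (h : LL R 0 ≤ n) : R + 1 ≤ rho n := by
  rw [rho_eq]
  have : Finset.range (R + 1) ⊆ (Finset.range (n + 1)).filter (fun i => LL i 0 ≤ n) := by
    intro k hk
    rw [Finset.mem_range] at hk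
    rw [Finset.mem_filter, Finset.mem_range]
    have h1 : LL k 0 ≤ LL R 0 := LL0_mono.monotone (by omega)
    have h3 := LL0_mono.id_le k
    simp only [id_eq] at h3
    constructor <;> omega
  simpa using Finset.card_le_card this

/-- the order function -/
def FF : ℕ → ℕ
  | 0 => 0
  | n + 1 => max (FF n) (4 * (n + 1) / rho (n + 1))

theorem FF_mono : Monotone FF := monotone_nat_of_le_succ fun n => le_max_left _ _

theorem le_FF (n : ℕ) : 4 * n / rho n ≤ FF n := by
  cases n with
  | zero => simp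
  | succ n => exact le_max_right _ _

theorem FF_level {i j : ℕ} (hj : j ≤ i + 1) : 4 * dd (i + 1) (AA i) j ≤ FF (LL i j) := by
  refine le_trans ?_ (le_FF _)
  rw [rho_level hj, LL_eq]
  rw [Nat.le_div_iff_mul_le (by omega)]
  apply le_of_eq
  ring

theorem FF_tendsto : Tendsto FF atTop atTop := by
  refine tendsto_atTop_atTop_of_monotone FF_mono fun b => ⟨LL b 0, ?_⟩
  have h1 := FF_level (i := b) (j := 0) (by omega)
  have h2 := dd_ge b 0
  omega

theorem FF_bound (R n : ℕ) (h : LL R 0 ≤ n) : (FF n : ℝ) ≤ FF (LL R 0) + 4 * n / (R + 1) := by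
  induction n, h using Nat.le_induction with
  | base =>
    have : (0 : ℝ) ≤ 4 * (LL R 0 : ℝ) / (R + 1) := by positivity
    linarith
  | succ n h ih =>
    have h1 : FF (n + 1) = max (FF n) (4 * (n + 1) / rho (n + 1)) := rfl
    rw [h1]
    push_cast
    refine max_le ?_ ?_
    · refine ih.trans ?_
      gcongr
      linarith
    · have h2 : R + 1 ≤ rho (n + 1) := le_rho (by omega)
      have h3 : 4 * (n + 1) / rho (n + 1) ≤ 4 * (n + 1) / (R + 1) :=
        Nat.div_le_div_left h2 (by omega)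
      have h4 : ((4 * (n + 1) / (R + 1) : ℕ) : ℝ) ≤ ((4 * (n + 1) : ℕ) : ℝ) / ((R + 1 : ℕ) : ℝ) :=
        Nat.cast_div_le
      have h5 : ((4 * (n + 1) / rho (n + 1) : ℕ) : ℝ) ≤ ((4 * (n + 1) / (R + 1) : ℕ) : ℝ) := by
        exact_mod_cast h3
      push_cast at h4
      have h6 : (0 : ℝ) ≤ FF (LL R 0) := Nat.cast_nonneg _
      linarith

theorem FF_sublinear : Tendsto (fun n : ℕ => (FF n : ℝ) / n) atTop (nhds 0) := by
  rw [Metric.tendsto_atTop]
  intro ε hε
  obtain ⟨R, hR⟩ := exists_nat_gt (8 / ε)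
  obtain ⟨N, hN⟩ := exists_nat_gt (2 * FF (LL R 0) / ε)
  refine ⟨max (LL R 0) (N + 1), fun n hn => ?_⟩
  have h1 : LL R 0 ≤ n := (le_max_left _ _).trans hn
  have h2 : N + 1 ≤ n := (le_max_right _ _).trans hn
  have h3 := FF_bound R n h1
  have hn0 : (0 : ℝ) < n := by
    have : 0 < n := by omega
    exact_mod_cast this
  rw [Real.dist_eq, sub_zero, abs_of_nonneg (by positivity), div_lt_iff₀ hn0]
  refine lt_of_le_of_lt h3 ?_
  have h4 : (FF (LL R 0) : ℝ) < ε / 2 * n := by
    rw [div_lt_iff₀ hε] at hN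
    have : (N : ℝ) + 1 ≤ n := by exact_mod_cast h2
    nlinarith
  have h5 : 4 * (n : ℝ) / (R + 1) ≤ ε / 2 * n := by
    rw [div_le_iff₀ (by positivity)]
    rw [div_lt_iff₀ hε] at hR
    nlinarith
  linarith

theorem pr_rho : Primrec rho := by
  unfold rho
  refine pr_sum (f := fun n => List.range (n + 1)) (g := fun n i => if LL i 0 ≤ n then 1 else 0)
    (Primrec.list_range.comp Primrec.succ) ?_
  refine Primrec.ite ?_ (Primrec.const 1) (Primrec.const 0)
  exact Primrec.nat_le.comp (pr_LL.comp (Primrec.snd.pair (Primrec.const 0))) Primrec.fst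

theorem pr_FF : Primrec FF := by
  have h0 : Primrec fun p : ℕ × ℕ => 4 * (p.1 + 1) / rho (p.1 + 1) :=
    Primrec.nat_div.comp (Primrec.nat_mul.comp (Primrec.const 4) (Primrec.succ.comp Primrec.fst))
      (pr_rho.comp (Primrec.succ.comp Primrec.fst))
  have h : Primrec₂ fun (n : ℕ) (x : ℕ) => max x (4 * (n + 1) / rho (n + 1)) :=
    Primrec.nat_max.comp Primrec.snd h0
  refine (Primrec.nat_rec₁ 0 h).of_eq fun n => ?_
  induction n with
  | zero => rfl
  | succ n ih => simp only [FF, ← ih]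

end Pool.Agent.H561R3.SC
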