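import Mathlib
import Pool.Agent.H561R3.SC.Order
import Pool.Agent.Helper227.Mach

set_option autoImplicit false

namespace Pool.Agent.H561R3.SC

open Encodable Pool.Agent.Helper227 Pool.Agent.H561R3 Filter

open Classical

/-- the block of `l` consecutive bits of `X` starting at position `k` -/
def block (X : ℕ → Bool) (k l : ℕ) : List Bool := (List.range l).map fun i => X (k + i)

/-- the shift-complex class: every block `τ` of `X` satisfies `K(τ) ≥ f(|τ|) - c` -/
def SC (U : List Bool →. List Bool) (f : ℕ → ℕ) (c : ℕ) : Set (ℕ → Bool) :=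
  {X | ∀ k l, f l ≤ KU U (block X k l) + c}

/-- the set of initial segments of length `m` of elements of `P` -/
noncomputable def restr (P : Set (ℕ → Bool)) (m : ℕ) : Finset (List Bool) :=
  (FS m).filter fun σ => ∃ X ∈ P, X ∈ cyl σ

/-- `P` is deep with respect to `ν`: for some computable order function `h`, the `ν`-mass of
`P ↾ h(n)` is at most `2^-n` for all `n` -/
def Deep (ν : List Bool → ℝ) (P : Set (ℕ → Bool)) : Prop :=
  ∃ h : ℕ → ℕ, Computable h ∧ Monotone h ∧ Tendsto h atTop atTop ∧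
    ∀ n, ∑ σ ∈ restr P (h n), ν σ ≤ (1 / 2 : ℝ) ^ n

theorem block_of_infix {X : ℕ → Bool} {x σ : List Bool} (hX : X ∈ cyl σ) (h : x <:+: σ) :
    ∃ k, block X k x.length = x := by
  obtain ⟨s, t, hst⟩ := h
  refine ⟨s.length, ?_⟩
  refine List.ext_getElem (by simp [block]) fun i h1 h2 => ?_
  simp only [block, List.getElem_map, List.getElem_range]
  have hlen : s.length + i < σ.length := by
    rw [← hst, List.length_append, List.length_append]; omega
  rw [hX (s.length + i) hlen]
  subst hst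
  rw [List.getElem_append_left (by rw [List.length_append]; omega),
    List.getElem_append_right (by omega)]
  simp

theorem mass_bound {U : List Bool →. List Bool} (hU : IsUniversal U) (c : ℕ)
    {ν : List Bool → ℝ} (hν : IsSemimeasure ν) (hce : LeftCE ν) :
    ∃ i₀ : ℕ, ∀ i ≥ i₀, ∑ σ ∈ restr (SC U FF c) (mm i), ν σ ≤ (1 / 2 : ℝ) ^ i := by
  obtain ⟨q, hq, hm, he⟩ := S1.of_re hce
  obtain ⟨M, hM1, hM2, hM3⟩ := KC.kraft_chaitin (pr_req hq) (req_bound hν he)
  obtain ⟨C, hC⟩ := hU.2 M ⟨hM1, hM2⟩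
  refine ⟨C + c, fun i hi => ?_⟩
  obtain ⟨t, ht⟩ := exists_small hν hm he i
  refine le_trans ?_ ht
  refine Finset.sum_le_sum_of_subset_of_nonneg ?_ (fun σ _ _ => hν.nonneg σ)
  intro σ hσ
  simp only [restr, Finset.mem_filter] at hσ ⊢
  obtain ⟨hF, X, hXP, hXσ⟩ := hσ
  refine ⟨hF, fun x hx hinf => ?_⟩
  obtain ⟨s, _, hs⟩ := mem_Hs q hx
  obtain ⟨j, hj, hlen⟩ := mem_cands.1 (pick_some q hs).1
  have hreq : req q (Nat.pair i s) = some (3 * (x.length / (i + 1)), x) := by
    unfold req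
    rw [Nat.unpair_pair]
    simp only
    rw [hs]
    rfl
  obtain ⟨τ, hτ1, hτ2⟩ := hM3 _ _ _ hreq
  obtain ⟨τ', h1, h2⟩ := hC τ x hτ2
  have h3 := KU_le h2
  obtain ⟨k, hk⟩ := block_of_infix hXσ hinf
  have h4 := hXP k x.length
  rw [hk] at h4
  have h5 := FF_level hj
  rw [← hlen] at h5
  have h6 : x.length / (i + 1) = dd (i + 1) (AA i) j := by rw [hlen, LL_div]
  rw [h6] at hτ1
  have h7 := dd_ge i j
  omega

theorem deep_FF {U : List Bool →. List Bool} (hU : IsUniversal U) (c : ℕ)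
    {ν : List Bool → ℝ} (hν : IsSemimeasure ν) (hce : LeftCE ν) : Deep ν (SC U FF c) := by
  obtain ⟨i₀, hi₀⟩ := mass_bound hU c hν hce
  refine ⟨fun n => mm (max n i₀), ?_, ?_, ?_, ?_⟩
  · exact (pr_mm.comp (Primrec.nat_max.comp Primrec.id (Primrec.const i₀))).to_comp
  · intro a b hab
    exact mm_mono.monotone (max_le_max_right _ hab)
  · refine tendsto_atTop_mono (fun n => ?_) tendsto_id
    exact (le_max_left n i₀).trans (mm_mono.id_le _)
  · intro n
    refine (hi₀ _ (le_max_right _ _)).trans ?_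
    exact pow_le_pow_of_le_one (by norm_num) (by norm_num) (le_max_left _ _)

end Pool.Agent.H561R3.SC
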