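import Mathlib
import Pool.Agent.H561R3.SC.Main
import Pool.Agent.Helper227.Sacks
import Pool.Agent.Helper227.Meas

set_option autoImplicit false

namespace Pool.Agent.H561R3.SC

open Encodable Pool.Agent.Helper227 Pool.Agent.H561R3 Filter MeasureTheory Nat.Partrec
open scoped ENNReal

section functional

variable (c : Code)

/-- the functional with code `c` produces `b` at `n` within the resources given by `ρ` -/
def V (x : List Bool × ℕ × Bool) : Prop := ∃ i < x.1.length + 1,
  (c.evaln x.1.length (encode (x.1.take i, x.2.1, x.2.2))).isSome = true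

theorem pr_V : PrimrecPred (V c) := by
  unfold V
  refine PP.ex_lt (α := List Bool × ℕ × Bool) (f := fun x => x.1.length + 1)
    (p := fun x i => (c.evaln x.1.length (encode (x.1.take i, x.2.1, x.2.2))).isSome = true) ?_
    (Primrec.succ.comp (Primrec.list_length.comp Primrec.fst))
  refine Primrec.eq.comp ?_ (Primrec.const true)
  refine Primrec.option_isSome.comp ?_
  have h1 : Primrec fun x : (List Bool × ℕ × Bool) × ℕ =>
      ((x.1.1.length, c), encode (x.1.1.take x.2, x.1.2.1, x.1.2.2)) := by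
    refine Primrec.pair (Primrec.pair ?_ (Primrec.const c)) (Primrec.encode.comp ?_)
    · exact Primrec.list_length.comp (Primrec.fst.comp Primrec.fst)
    · exact (Primrec.list_take.comp Primrec.snd (Primrec.fst.comp Primrec.fst)).pair
        ((Primrec.fst.comp (Primrec.snd.comp Primrec.fst)).pair
          (Primrec.snd.comp (Primrec.snd.comp Primrec.fst)))
  exact Code.primrec_evaln.comp h1

/-- the first decision of the functional with code `c` at `n` is `b` -/
def D (x : List Bool × ℕ × Bool) : Prop := ∃ j < x.1.length + 1,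
  (V c (x.1.take j, x.2.1, x.2.2) ∧ (∀ j' < j, ¬ V c (x.1.take j', x.2.1, true) ∧
    ¬ V c (x.1.take j', x.2.1, false))) ∧ (x.2.2 = true → ¬ V c (x.1.take j, x.2.1, false))

theorem pr_D : PrimrecPred (D c) := by
  unfold D
  refine PP.ex_lt (α := List Bool × ℕ × Bool) (f := fun x => x.1.length + 1)
    (p := fun x j => (V c (x.1.take j, x.2.1, x.2.2) ∧ (∀ j' < j, ¬ V c (x.1.take j', x.2.1, true) ∧
    ¬ V c (x.1.take j', x.2.1, false))) ∧ (x.2.2 = true → ¬ V c (x.1.take j, x.2.1, false))) ?_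
    (Primrec.succ.comp (Primrec.list_length.comp Primrec.fst))
  have hV : ∀ {β : Type} [Primcodable β] {f : β → List Bool} {n : β → ℕ} {b : β → Bool},
      Primrec f → Primrec n → Primrec b → PrimrecPred fun x => V c (f x, n x, b x) := by
    intro β _ f n b hf hn hb
    exact (pr_V c).comp (hf.pair (hn.pair hb))
  have e1 : Primrec fun x : (List Bool × ℕ × Bool) × ℕ => x.1.1.take x.2 :=
    Primrec.list_take.comp Primrec.snd (Primrec.fst.comp Primrec.fst)
  have e2 : Primrec fun x : (List Bool × ℕ × Bool) × ℕ => x.1.2.1 :=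
    Primrec.fst.comp (Primrec.snd.comp Primrec.fst)
  have e3 : Primrec fun x : (List Bool × ℕ × Bool) × ℕ => x.1.2.2 :=
    Primrec.snd.comp (Primrec.snd.comp Primrec.fst)
  refine PrimrecPred.and (PrimrecPred.and (hV e1 e2 e3) ?_) ?_
  · refine PP.all_lt (α := (List Bool × ℕ × Bool) × ℕ) (f := fun x => x.2)
      (p := fun x j' => ¬ V c (x.1.1.take j', x.1.2.1, true) ∧
        ¬ V c (x.1.1.take j', x.1.2.1, false)) ?_ Primrec.snd
    have e4 : Primrec fun x : ((List Bool × ℕ × Bool) × ℕ) × ℕ => x.1.1.1.take x.2 :=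
      Primrec.list_take.comp Primrec.snd (Primrec.fst.comp (Primrec.fst.comp Primrec.fst))
    exact PrimrecPred.and (PrimrecPred.not (hV e4 (e2.comp Primrec.fst) (Primrec.const true)))
      (PrimrecPred.not (hV e4 (e2.comp Primrec.fst) (Primrec.const false)))
  · have h5 : PrimrecPred fun x : (List Bool × ℕ × Bool) × ℕ =>
        ¬ (x.1.2.2 = true) ∨ ¬ V c (x.1.1.take x.2, x.1.2.1, false) :=
      PrimrecPred.or (PrimrecPred.not (Primrec.eq.comp e3 (Primrec.const true)))
        (PrimrecPred.not (hV e1 e2 (Primrec.const false)))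
    exact h5.of_eq fun x => imp_iff_not_or.symm

theorem D_mono {ρ ρ' : List Bool} {n : ℕ} {b : Bool} (h : ρ <+: ρ') (hD : D c (ρ, n, b)) :
    D c (ρ', n, b) := by
  obtain ⟨j, hj, ⟨h1, h2⟩, h3⟩ := hD
  simp only at hj h1 h2 h3
  obtain ⟨z, rfl⟩ := h
  have ht : ∀ k ≤ j, (ρ ++ z).take k = ρ.take k := fun k hk =>
    List.take_append_of_le_length (by omega)
  refine ⟨j, ?_, ⟨?_, ?_⟩, ?_⟩
  · simp only [List.length_append]; omega
  · simp only; rw [ht j le_rfl]; exact h1
  · intro j' hj'
    simp only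
    rw [ht j' hj'.le]; exact h2 j' hj'
  · simp only; rw [ht j le_rfl]; exact h3

theorem D_unique {ρ : List Bool} {n : ℕ} {b b' : Bool} (h : D c (ρ, n, b))
    (h' : D c (ρ, n, b')) : b = b' := by
  obtain ⟨j, hj, ⟨h1, h2⟩, h3⟩ := h
  obtain ⟨k, hk, ⟨h1', h2'⟩, h3'⟩ := h'
  simp only at hj h1 h2 h3 hk h1' h2' h3'
  have key : ∀ (d : Bool) (m : ℕ), V c (ρ.take m, n, d) →
      ¬ (¬ V c (ρ.take m, n, true) ∧ ¬ V c (ρ.take m, n, false)) := by
    intro d m hd hc
    cases d
    · exact hc.2 hd
    · exact hc.1 hd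
  have hjk : j = k := by
    rcases Nat.lt_trichotomy j k with h | h | h
    · exact absurd (h2' j h) (key b j h1)
    · exact h
    · exact absurd (h2 k h) (key b' k h1')
  subst hjk
  cases b <;> cases b'
  · rfl
  · exact absurd h1 (h3' rfl)
  · exact absurd h1' (h3 rfl)
  · rfl

theorem D_of_cpt {C Y : ℕ → Bool} (h : cpt c C Y) (n : ℕ) : ∃ t, D c (pre Y t, n, C n) := by
  classical
  have hVs : ∀ t b, V c (pre Y t, n, b) → C n = b := by
    rintro t b ⟨i, hi, hV⟩
    simp only [length_pre] at hi hV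
    rw [take_pre _ _ _ (by omega)] at hV
    exact (h n b).2 ⟨i, t, hV⟩
  have hex : ∃ t, V c (pre Y t, n, C n) := by
    obtain ⟨s, r, hsr⟩ := (h n (C n)).1 rfl
    refine ⟨max s r, s, ?_, ?_⟩
    · simp only [length_pre]
      have := le_max_left s r
      omega
    · simp only [length_pre]
      rw [take_pre _ _ _ (le_max_left _ _)]
      obtain ⟨y, hy⟩ := Option.isSome_iff_exists.1 hsr
      exact Option.isSome_iff_exists.2 ⟨y, Code.evaln_mono (le_max_right _ _) hy⟩
  refine ⟨Nat.find hex, Nat.find hex, ?_, ⟨?_, ?_⟩, ?_⟩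
  · simp only [length_pre]; omega
  · simp only
    rw [take_pre _ _ _ le_rfl]
    exact Nat.find_spec hex
  · intro j' hj'
    simp only
    rw [take_pre _ _ _ hj'.le]
    have h1 := Nat.find_min hex hj'
    constructor
    · intro hV
      have := hVs _ _ hV
      rw [← this] at hV
      exact h1 hV
    · intro hV
      have := hVs _ _ hV
      rw [← this] at hV
      exact h1 hV
  · simp only
    intro hC hV
    rw [take_pre _ _ _ le_rfl] at hV
    have := hVs _ _ hV
    rw [hC] at this
    cases this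

/-- the functional with code `c` on `ρ` produces an extension of `σ` -/
def Sx (σ ρ : List Bool) : Prop := ∀ n < σ.length, D c (ρ, n, σ.getD n false)

/-- the oracles on which the functional with code `c` produces an extension of `σ` -/
def OO (σ : List Bool) : Set (ℕ → Bool) := {Y | ∃ t, Sx c σ (pre Y t)}

/-- the induced semimeasure -/
noncomputable def mu (σ : List Bool) : ℝ := (lam (OO c σ)).toReal

theorem measurableSet_OO (σ : List Bool) : MeasurableSet (OO c σ) :=
  measurableSet_open (fun _ ζ => Sx c σ ζ)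

theorem Sx_mono {σ ρ ρ' : List Bool} (h : ρ <+: ρ') (hS : Sx c σ ρ) : Sx c σ ρ' :=
  fun n hn => D_mono c h (hS n hn)

instance : IsProbabilityMeasure lam := by unfold lam; infer_instance

theorem mu_semimeasure : IsSemimeasure (mu c) := by
  refine ⟨fun σ => ENNReal.toReal_nonneg, ?_, ?_⟩
  · unfold mu
    exact ENNReal.toReal_mono ENNReal.one_ne_top prob_le_one
  · intro σ
    have hsub : ∀ b, OO c (σ ++ [b]) ⊆ OO c σ := by
      rintro b Y ⟨t, ht⟩
      refine ⟨t, fun n hn => ?_⟩
      have := ht n (by rw [List.length_append]; omega)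
      rwa [List.getD_append _ _ _ _ hn] at this
    have hdis : Disjoint (OO c (σ ++ [false])) (OO c (σ ++ [true])) := by
      rw [Set.disjoint_left]
      rintro Y ⟨t, ht⟩ ⟨t', ht'⟩
      have h1 := Sx_mono c (pre_prefix Y (le_max_left t t')) ht
      have h2 := Sx_mono c (pre_prefix Y (le_max_right t t')) ht'
      have h3 := h1 σ.length (by simp)
      have h4 := h2 σ.length (by simp)
      have h5 := D_unique c h3 h4
      simp at h5
    unfold mu
    rw [← ENNReal.toReal_add (measure_ne_top _ _) (measure_ne_top _ _),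
      ← measure_union hdis (measurableSet_OO c _)]
    exact ENNReal.toReal_mono (measure_ne_top _ _)
      (measure_mono (Set.union_subset (hsub false) (hsub true)))

theorem mu_leftCE : LeftCE (mu c) := by
  have h1 : S1 fun x : (List Bool × ℕ × ℕ) × List Bool => Sx c x.1.1 x.2 := by
    refine S1.of_prim ?_
    unfold Sx
    refine PP.all_lt (α := (List Bool × ℕ × ℕ) × List Bool) (f := fun x => x.1.1.length)
      (p := fun x n => D c (x.2, n, x.1.1.getD n false)) ?_
      (Primrec.list_length.comp (Primrec.fst.comp Primrec.fst))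
    exact (pr_D c).comp ((Primrec.snd.comp Primrec.fst).pair (Primrec.snd.pair
      ((Primrec.list_getD false).comp (Primrec.fst.comp (Primrec.fst.comp Primrec.fst))
        Primrec.snd)))
  have h2 := s1_measure_gt (α := List Bool × ℕ × ℕ) (P := fun x ρ => Sx c x.1 ρ) h1
    (a := fun x => x.2.1) (b := fun x => x.2.2 + 1) (Primrec.fst.comp Primrec.snd)
    (Primrec.succ.comp (Primrec.snd.comp Primrec.snd)) (fun x => Nat.succ_ne_zero _)
  refine (h2.of_eq fun x => ?_).re
  unfold mu
  rw [← ENNReal.ofReal_lt_iff_lt_toReal (by positivity) (measure_ne_top _ _),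
    ENNReal.ofReal_div_of_pos (by positivity)]
  have e1 : ENNReal.ofReal (x.2.1 : ℝ) = (x.2.1 : ℝ≥0∞) := ENNReal.ofReal_natCast _
  have e2 : ENNReal.ofReal ((x.2.2 : ℝ) + 1) = ((x.2.2 + 1 : ℕ) : ℝ≥0∞) := by
    have : ((x.2.2 : ℝ) + 1) = ((x.2.2 + 1 : ℕ) : ℝ) := by push_cast; ring
    rw [this]
    exact ENNReal.ofReal_natCast _
  rw [e1, e2]
  rfl

theorem lam_cpt_zero {P : Set (ℕ → Bool)} (hP : Deep (mu c) P) :
    lam {Y | ∃ X ∈ P, cpt c X Y} = 0 := by
  obtain ⟨h, _, _, _, hb⟩ := hP
  have h1 : ∀ n, lam {Y | ∃ X ∈ P, cpt c X Y} ≤ ENNReal.ofReal ((1 / 2 : ℝ) ^ n) := by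
    intro n
    have hsub : {Y | ∃ X ∈ P, cpt c X Y} ⊆ ⋃ σ ∈ restr P (h n), OO c σ := by
      rintro Y ⟨X, hX, hc⟩
      rw [Set.mem_iUnion₂]
      refine ⟨pre X (h n), ?_, ?_⟩
      · simp only [restr, Finset.mem_filter]
        exact ⟨mem_FS.2 (length_pre _ _), X, hX, mem_cyl_pre _ _⟩
      · choose g hg using fun k => D_of_cpt c hc k
        refine ⟨(Finset.range (h n)).sup g, fun k hk => ?_⟩
        rw [length_pre] at hk
        rw [pre_getD _ _ _ _ hk]
        exact D_mono c (pre_prefix Y (Finset.le_sup (Finset.mem_range.2 hk))) (hg k)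
    refine (measure_mono hsub).trans ((measure_biUnion_finset_le _ _).trans ?_)
    have h2 : ∀ σ ∈ restr P (h n), lam (OO c σ) = ENNReal.ofReal (mu c σ) := by
      intro σ _
      unfold mu
      rw [ENNReal.ofReal_toReal (measure_ne_top _ _)]
    rw [Finset.sum_congr rfl h2, ← ENNReal.ofReal_sum_of_nonneg
      (fun σ _ => (mu_semimeasure c).nonneg σ)]
    exact ENNReal.ofReal_le_ofReal (hb n)
  refine le_antisymm ?_ bot_le
  have h3 : Tendsto (fun n : ℕ => ENNReal.ofReal ((1 / 2 : ℝ) ^ n)) atTop (nhds 0) := by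
    have := (tendsto_pow_atTop_nhds_zero_of_lt_one (r := (1 / 2 : ℝ)) (by norm_num)
      (by norm_num))
    simpa using ENNReal.tendsto_ofReal this
  exact ge_of_tendsto' h3 h1

end functional

theorem negligible_of {P : Set (ℕ → Bool)}
    (h : ∀ ν, IsSemimeasure ν → LeftCE ν → Deep ν P) :
    lam {Y | ∃ X ∈ P, TLe X Y} = 0 := by
  have hsub : {Y | ∃ X ∈ P, TLe X Y} ⊆ ⋃ c : Code, {Y | ∃ X ∈ P, cpt c X Y} := by
    rintro Y ⟨X, hX, hXY⟩
    obtain ⟨c, hc⟩ := exists_cpt hXY
    rw [Set.mem_iUnion]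
    exact ⟨c, X, hX, hc⟩
  refine measure_mono_null hsub ?_
  rw [measure_iUnion_null_iff]
  exact fun c => lam_cpt_zero c (h _ (mu_semimeasure c) (mu_leftCE c))

end Pool.Agent.H561R3.SC
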